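import Pool.Agent.H648.Q.Defs
import Pool.Graph.R_seed8.W500.GT.RestB

/-! D0: finite sets of primes in a residue class with small product (project Q648 of helper648). -/

set_option autoImplicit false

namespace Pool.Agent.H914.Q648

open Finset
open Pool.Agent.H648.Q

theorem prd : S_PRD := by
  intro N r hN hr η hη
  obtain ⟨Q, hQ, hS, -⟩ := Pool.Agent.W500.GT.exists_QQ (M := N) (r := r) (by omega) hr 0
    (le_max_left 0 (-Real.log η))
  refine ⟨Q, fun q hq => ⟨(hQ q hq).1, (hQ q hq).2.1⟩, ?_⟩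
  refine (Pool.Agent.W500.GT.prod_le_exp Q fun q hq => (hQ q hq).1).trans ?_
  have h1 : -Real.log η ≤ ∑ q ∈ Q, 1 / (q : ℝ) := (le_max_right 0 _).trans hS
  calc Real.exp (-∑ q ∈ Q, 1 / (q : ℝ)) ≤ Real.exp (Real.log η) :=
        Real.exp_le_exp.2 (by linarith)
    _ = η := Real.exp_log hη

end Pool.Agent.H914.Q648
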