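import Pool.Agent.H648.Q.Defs3

/-! PROJECT Q648 (helper648), part RED3 (helper914): removing the factor `k` from the pairs. -/

set_option autoImplicit false

namespace Pool.Agent.H914.Q648

open Finset

theorem core {q1 q2 K F : ℕ} (hK : 0 < K) (h : q1 * q2 = K * F) :
    K / q1.gcd K ∣ q2 ∧ (q1 / q1.gcd K) * (q2 / (K / q1.gcd K)) = F := by
  have hg : 0 < q1.gcd K := Nat.gcd_pos_of_pos_right _ hK
  obtain ⟨d, K', hcop, e1, e2⟩ := Nat.exists_coprime q1 K
  set g := q1.gcd K with hgdef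
  have hd : q1 / g = d := by rw [e1]; exact Nat.mul_div_cancel _ hg
  have hk : K / g = K' := by rw [e2]; exact Nat.mul_div_cancel _ hg
  have hK' : 0 < K' := by
    rcases Nat.eq_zero_or_pos K' with h0 | h0
    · rw [h0, zero_mul] at e2
      omega
    · exact h0
  have h1 : d * q2 = K' * F := by
    have h2 : g * (d * q2) = g * (K' * F) := by
      calc g * (d * q2) = (d * g) * q2 := by ring
        _ = q1 * q2 := by rw [← e1]
        _ = K * F := h
        _ = (K' * g) * F := by rw [← e2]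
        _ = g * (K' * F) := by ring
    exact Nat.eq_of_mul_eq_mul_left hg h2
  have h3 : K' ∣ q2 := hcop.symm.dvd_of_dvd_mul_left ⟨F, h1⟩
  rw [hd, hk]
  refine ⟨h3, ?_⟩
  obtain ⟨d', rfl⟩ := h3
  rw [Nat.mul_div_cancel_left _ hK']
  apply Nat.eq_of_mul_eq_mul_left hK'
  rw [← h1]
  ring

theorem red3_of {g : ℕ → ℤ} {a b c : ℤ} : Pool.Agent.H648.Q3.S_RED3 g a b c := by
  classical
  intro k hk
  obtain ⟨K, rfl⟩ : ∃ K : ℕ, k = K := ⟨k.toNat, (Int.toNat_of_nonneg hk.le).symm⟩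
  have hK : 0 < K := by exact_mod_cast hk
  refine ⟨(Nat.divisors K).card, ?_, ?_⟩
  · have : 0 < (Nat.divisors K).card := Finset.card_pos.2 ⟨1, Nat.one_mem_divisors.2 hK.ne'⟩
    exact_mod_cast this
  intro N s
  have hmem : ∀ q ∈ Pool.Agent.H648.Q3.PA g a b c (K : ℤ) s N, 1 ≤ q.1 ∧ q.1 ≤ N ∧ 1 ≤ q.2 ∧ q.2 ≤ N ∧
      ∃ x F : ℕ, 1 ≤ x ∧ q.1 * q.2 = K * F ∧ Pool.Agent.H648.Q.Fp a b c x = F ∧ g F = s ∧
        0 < F := by
    intro q hq
    unfold Pool.Agent.H648.Q3.PA at hq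
    rw [Finset.mem_filter, Finset.mem_product, Finset.mem_Icc, Finset.mem_Icc] at hq
    obtain ⟨⟨⟨h1, h2⟩, ⟨h3, h4⟩⟩, x, hx, hxe, hg⟩ := hq
    refine ⟨h1, h2, h3, h4, x, (Pool.Agent.H648.Q.Fp a b c x).natAbs, hx, ?_⟩
    have hpos : (0 : ℤ) < (q.1 : ℤ) * q.2 := by
      have a1 : (0 : ℤ) < (q.1 : ℤ) := by exact_mod_cast h1
      have a2 : (0 : ℤ) < (q.2 : ℤ) := by exact_mod_cast h3
      positivity
    rw [hxe] at hpos
    have hF : 0 < Pool.Agent.H648.Q.Fp a b c x := by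
      have : (0 : ℤ) ≤ (K : ℤ) := hk.le
      exact pos_of_mul_pos_right hpos this
    have e : ((Pool.Agent.H648.Q.Fp a b c x).natAbs : ℤ) = Pool.Agent.H648.Q.Fp a b c x :=
      Int.natAbs_of_nonneg hF.le
    refine ⟨?_, e.symm, hg, Int.natAbs_pos.2 hF.ne'⟩
    have : ((q.1 * q.2 : ℕ) : ℤ) = ((K * (Pool.Agent.H648.Q.Fp a b c x).natAbs : ℕ) : ℤ) := by
      push_cast
      rw [hxe]
      congr 1
      exact (abs_of_pos hF).symm
    exact_mod_cast this
  have hcard : (Pool.Agent.H648.Q3.PA g a b c (K : ℤ) s N).card ≤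
      ((Nat.divisors K) ×ˢ (Pool.Agent.H648.Q3.PR g a b c s N)).card := by
    refine Finset.card_le_card_of_injOn
      (fun q => (q.1.gcd K, (q.1 / q.1.gcd K, q.2 / (K / q.1.gcd K)))) ?_ ?_
    · intro q hq
      obtain ⟨h1, h2, h3, h4, x, F, hx, he, hF, hg, hF0⟩ := hmem q hq
      obtain ⟨c1, c2⟩ := core hK he
      have hgpos : 0 < q.1.gcd K := Nat.gcd_pos_of_pos_right _ hK
      have hne : (q.1 / q.1.gcd K) * (q.2 / (K / q.1.gcd K)) ≠ 0 := by rw [c2]; exact hF0.ne'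
      rw [Finset.mem_coe, Finset.mem_product]
      refine ⟨Nat.mem_divisors.2 ⟨Nat.gcd_dvd_right _ _, hK.ne'⟩, ?_⟩
      unfold Pool.Agent.H648.Q3.PR
      rw [Finset.mem_filter, Finset.mem_product, Finset.mem_Icc, Finset.mem_Icc]
      refine ⟨⟨⟨Nat.one_le_iff_ne_zero.2 (left_ne_zero_of_mul hne), ?_⟩,
        Nat.one_le_iff_ne_zero.2 (right_ne_zero_of_mul hne), ?_⟩, ⟨x, hx, ?_⟩, ?_⟩
      · exact (Nat.div_le_self _ _).trans h2
      · exact (Nat.div_le_self _ _).trans h4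
      · rw [hF, ← c2]
        push_cast
        rfl
      · show g ((q.1 / q.1.gcd K) * (q.2 / (K / q.1.gcd K))) = s
        rw [c2]
        exact hg
    · intro q hq q' hq' heq
      obtain ⟨-, -, -, -, x, F, -, he, -, -, -⟩ := hmem q hq
      obtain ⟨-, -, -, -, x', F', -, he', -, -, -⟩ := hmem q' hq'
      obtain ⟨c1, -⟩ := core hK he
      obtain ⟨c1', -⟩ := core hK he'
      simp only [Prod.mk.injEq] at heq
      obtain ⟨e1, e2, e3⟩ := heq
      have d1 : q.1.gcd K ∣ q.1 := Nat.gcd_dvd_left _ _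
      have d1' : q'.1.gcd K ∣ q'.1 := Nat.gcd_dvd_left _ _
      apply Prod.ext
      · rw [← Nat.mul_div_cancel' d1, ← Nat.mul_div_cancel' d1', e2, e1]
      · rw [← Nat.mul_div_cancel' c1, ← Nat.mul_div_cancel' c1', e3, e1]
  rw [Finset.card_product] at hcard
  exact_mod_cast hcard

end Pool.Agent.H914.Q648
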